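import Pool.Agent.P.MP_8fd115_co.Bridge

/-! Every triangle-free hexagonal graph has a `(9m, 4m)`-colouring for some `m ≥ 1`: its
fractional chromatic number is at most `9/4`. -/

namespace Pool.Agent.Results.MP_8fd115_co.Fractional

open Pool.Agent.P.MP_8fd115_co

theorem result (U : Finset (ℤ × ℤ)) (hU : (TL.induce (U : Set (ℤ × ℤ))).CliqueFree 3) :
    ∃ m : ℕ, 0 < m ∧ HasColouring (TL.induce (U : Set (ℤ × ℤ))) (fun _ => 4 * m) (9 * m) := by
  obtain ⟨m, hm, col, h1, h2⟩ := frac (tf_of_cliqueFree hU)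
  refine ⟨m, hm, fun v => Finset.univ.filter fun j => v.1 ∈ col j, fun v => h2 v.1 v.2, ?_⟩
  intro u v h
  obtain ⟨d, hd⟩ := (adj_iff _ _).1 h
  rw [Finset.disjoint_filter]
  intro j _ hu hv
  exact h1 j _ hu d (hd ▸ hv)

end Pool.Agent.Results.MP_8fd115_co.Fractional
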