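import Pool.Agent.P.MP_8fd115_co.Weighted

/-! Weighted colourings of triangle-free hexagonal graphs: `χ(G,p) ≤ (9/8 + ε) ω(G,p) + C(ε)`. -/

namespace Pool.Agent.Results.MP_8fd115_co.Weighted

open Pool.Agent.P.MP_8fd115_co

theorem result (ε : ℝ) (hε : 0 < ε) : ∃ C : ℕ, ∀ U : Finset (ℤ × ℤ),
    (TL.induce (U : Set (ℤ × ℤ))).CliqueFree 3 → ∀ (p : ↥(U : Set (ℤ × ℤ)) → ℕ) (ω : ℕ),
    (∀ K : Finset ↥(U : Set (ℤ × ℤ)), (TL.induce (U : Set (ℤ × ℤ))).IsClique K → ∑ v ∈ K, p v ≤ ω) →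
    ∃ k : ℕ, (k : ℝ) ≤ (9 / 8 + ε) * ω + C ∧ HasColouring (TL.induce (U : Set (ℤ × ℤ))) p k := by
  classical
  obtain ⟨C, h⟩ := weighted_bound hε
  refine ⟨C, fun U hU p ω hω => ?_⟩
  obtain ⟨k, hk, f, f1, f2⟩ := h U (tf_of_cliqueFree hU) (fun v => if hv : v ∈ U then p ⟨v, hv⟩ else 0) ω
    (fun v hv => by simpa [hv] using hω {⟨v, hv⟩} (by simp))
    (fun v hv d hd => by
      have ha : (TL.induce (U : Set (ℤ × ℤ))).Adj ⟨v, hv⟩ ⟨v + D d, hd⟩ := (adj_iff _ _).2 ⟨d, rfl⟩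
      have := hω {⟨v, hv⟩, ⟨v + D d, hd⟩} (by simpa using fun _ => ha)
      rw [Finset.sum_pair ha.ne] at this
      simpa [hv, hd] using this)
  have key : ∀ v : ↥(U : Set (ℤ × ℤ)), ∃ c ⊆ Finset.univ.filter fun j => v.1 ∈ f j, c.card = p v :=
    fun v => Finset.exists_subset_card_eq (by
      have hv : v.1 ∈ U := v.2
      simpa [hv] using f2 v.1 hv)
  choose c c1 c2 using key
  refine ⟨k, hk, c, c2, fun u v huv => Finset.disjoint_of_subset_left (c1 u)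
    (Finset.disjoint_of_subset_right (c1 v) ?_)⟩
  obtain ⟨d, hd⟩ := (adj_iff _ _).1 huv
  rw [Finset.disjoint_filter]
  intro j _ hu hv
  exact f1 j _ hu d (hd ▸ hv)

end Pool.Agent.Results.MP_8fd115_co.Weighted
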